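import Mathlib

/-!
# Large sets are `t`-weak sequenceable, in every group

For every (not necessarily abelian) additive group `G`, every `t ≥ 1` and every finite
`A ⊆ G ∖ {0}` with `|A| ≥ 4 t ^ 2 + 3 t`, the set `A` has a `t`-weak sequencing: an ordering in
which any two partial sums `s_i, s_j` with `0 < |i - j| ≤ t` are distinct.

Proof.  Greedily build a good list of length `(2 t + 1) t`; it has `2 t` slots at distance `t`.
A slot forbids at most `t (t + 1) / 2` elements, so at most `t ^ 2` elements of `A` are allowed in
fewer than `t` slots.  These elements are placed next, each after a suitable spacer.  Then one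
continues greedily until exactly `t` elements are left.  Each of them fits in at least `t` slots,
so that they can be inserted in different slots.
-/

namespace Pool.Agent.Results.MP_b4ec45_co.LargeSets

open scoped Classical

variable {G : Type*} [AddGroup G]

/-- The list `l = (a_1, ..., a_k)` has partial sums `s_0 = 0, s_1, ..., s_k` with `s_i ≠ s_j`
whenever `0 ≤ i < j ≤ k` and `j - i ≤ t`. -/
def WeakSequencing (t : ℕ) (l : List G) : Prop :=
  ∀ i j : ℕ, i < j → j ≤ l.length → j - i ≤ t → (l.take i).sum ≠ (l.take j).sum

/-- No nonempty block of length at most `t` has sum zero. -/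
def Good (t : ℕ) (l : List G) : Prop :=
  ∀ p w s : List G, l = p ++ (w ++ s) → w ≠ [] → w.length ≤ t → w.sum ≠ 0

theorem Good.weak {t : ℕ} {l : List G} (h : Good t l) : WeakSequencing t l := by
  intro i j hij hj ht heq
  have h1 : l = l.take i ++ ((l.take j).drop i ++ l.drop j) := by
    have e1 : l.take j = l.take i ++ (l.take j).drop i := by
      conv_lhs => rw [← List.take_append_drop i (l.take j)]
      rw [List.take_take, min_eq_left hij.le]
    rw [← List.append_assoc, ← e1, List.take_append_drop]
  have hlen : ((l.take j).drop i).length = j - i := by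
    simp [min_eq_left hj]
  refine h _ _ _ h1 ?_ (by omega) ?_
  · intro h0
    rw [h0] at hlen
    simp at hlen
    omega
  · have e1 : l.take j = l.take i ++ (l.take j).drop i := by
      conv_lhs => rw [← List.take_append_drop i (l.take j)]
      rw [List.take_take, min_eq_left hij.le]
    have e2 : (l.take j).sum = (l.take i).sum + ((l.take j).drop i).sum := by
      conv_lhs => rw [e1]
      rw [List.sum_append]
    rw [e2] at heq
    exact (left_eq_add.mp heq)

theorem good_insert {t : ℕ} {P Q : List G} {y : G} (h : Good t (P ++ Q))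
    (hy : ∀ p u v q : List G, P = p ++ u → Q = v ++ q → u.length + v.length + 1 ≤ t →
      u.sum + (y + v.sum) ≠ 0) : Good t (P ++ y :: Q) := by
  intro p w s hl hw hlen hsum
  rcases List.append_eq_append_iff.mp hl with ⟨a', ha, hb⟩ | ⟨c', ha, hb⟩
  · cases a' with
    | nil =>
      cases w with
      | nil => exact hw rfl
      | cons z w' =>
        simp only [List.nil_append, List.cons_append, List.cons.injEq] at hb
        obtain ⟨rfl, hb⟩ := hb
        refine hy P [] w' s (by simp) hb (by simpa using hlen) ?_
        simpa using hsum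
    | cons z a'' =>
      simp only [List.cons_append, List.cons.injEq] at hb
      obtain ⟨rfl, hb⟩ := hb
      exact h (P ++ a'') w s (by rw [hb]; simp) hw hlen hsum
  · rcases List.append_eq_append_iff.mp hb with ⟨a', hc, hd⟩ | ⟨d', hc, hd⟩
    · exact h p w (a' ++ Q) (by rw [ha, hc]; simp) hw hlen hsum
    · cases d' with
      | nil =>
        simp only [List.append_nil] at hc
        exact h p w Q (by rw [ha, hc]; simp) hw hlen hsum
      | cons z d'' =>
        simp only [List.cons_append, List.cons.injEq] at hd
        obtain ⟨rfl, hd⟩ := hd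
        subst hc
        refine hy p c' d'' s ha hd ?_ ?_
        · simp at hlen
          omega
        · simpa using hsum

theorem good_append_one {t : ℕ} {l : List G} {x : G} (h : Good t l)
    (hx : ∀ p u : List G, l = p ++ u → u.length + 1 ≤ t → u.sum + x ≠ 0) :
    Good t (l ++ [x]) := by
  refine good_insert (Q := []) (by simpa using h) ?_
  intro p u v q hp hq hlen
  have hv : v = [] := (List.append_eq_nil_iff.mp hq.symm).1
  subst hv
  simpa using hx p u hp (by simpa using hlen)

omit [AddGroup G] in
theorem suffix_eq {l p u : List G} (h : l = p ++ u) : u = l.drop (l.length - u.length) := by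
  subst h
  simp

omit [AddGroup G] in
theorem prefix_eq {l v q : List G} (h : l = v ++ q) : v = l.take v.length := by
  subst h
  simp

/-- elements which cannot be appended to `l` -/
noncomputable def forbEnd (t : ℕ) (l : List G) (b : G) : Finset G :=
  (Finset.range t).image fun r => -(l.drop (l.length - r)).sum + -b

theorem forbEnd_card (t : ℕ) (l : List G) (b : G) : (forbEnd t l b).card ≤ t := by
  unfold forbEnd
  exact Finset.card_image_le.trans (by simp)

theorem forbEnd_spec {t : ℕ} {l : List G} {b x : G} (hx : x ∉ forbEnd t l b) {p u : List G}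
    (h : l = p ++ u) (hu : u.length + 1 ≤ t) : u.sum + (x + b) ≠ 0 := by
  intro h0
  apply hx
  unfold forbEnd
  rw [Finset.mem_image]
  refine ⟨u.length, by simpa using hu, ?_⟩
  rw [← suffix_eq h]
  have h1 : x + b = -u.sum := eq_neg_of_add_eq_zero_right h0
  rw [← h1]
  simp

theorem exists_append {t : ℕ} {l : List G} (h : Good t l) {P : Finset G} (hP : t < P.card) :
    ∃ x ∈ P, Good t (l ++ [x]) := by
  obtain ⟨x, hx, hx'⟩ := Finset.exists_mem_notMem_of_card_lt_card
    (lt_of_le_of_lt (forbEnd_card t l 0) hP)
  refine ⟨x, hx, good_append_one h ?_⟩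
  intro p u hp hu
  simpa using forbEnd_spec hx' hp hu

theorem exists_append_two {t : ℕ} {l : List G} (h : Good t l) {P : Finset G} {b : G}
    (hb : b ≠ 0) (hP : 2 * t < P.card) : ∃ x ∈ P, Good t (l ++ [x, b]) := by
  have hc : (forbEnd t l 0 ∪ forbEnd t l b).card < P.card := by
    have h1 := Finset.card_union_le (forbEnd t l 0) (forbEnd t l b)
    have h2 := forbEnd_card t l (0 : G)
    have h3 := forbEnd_card t l b
    omega
  obtain ⟨x, hx, hx'⟩ := Finset.exists_mem_notMem_of_card_lt_card hc
  simp only [Finset.mem_union, not_or] at hx'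
  refine ⟨x, hx, ?_⟩
  have h1 : Good t (l ++ [x]) := good_append_one h fun p u hp hu => by
    simpa using forbEnd_spec hx'.1 hp hu
  have h2 : Good t ((l ++ [x]) ++ [b]) := by
    refine good_append_one h1 ?_
    intro p u hp hu
    rcases List.eq_nil_or_concat u with rfl | ⟨u', z, rfl⟩
    · simpa using hb
    · rw [List.concat_eq_append, ← List.append_assoc] at hp
      obtain ⟨h3, h4⟩ := List.append_inj' hp rfl
      simp only [List.cons.injEq, and_true] at h4
      subst h4
      have := forbEnd_spec hx'.2 h3 (by simp at hu; omega)
      simpa [add_assoc] using this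
  simpa using h2

section greedy

omit [AddGroup G] in
theorem card_sdiff_list {A : Finset G} {l : List G} (hn : l.Nodup) (hA : ∀ x ∈ l, x ∈ A) :
    (A \ l.toFinset).card = A.card - l.length := by
  rw [Finset.card_sdiff_of_subset (by intro x hx; exact hA x (by simpa using hx)),
    List.toFinset_card_of_nodup hn]

omit [AddGroup G] in
theorem length_le {A : Finset G} {l : List G} (hn : l.Nodup) (hA : ∀ x ∈ l, x ∈ A) :
    l.length ≤ A.card := by
  rw [← List.toFinset_card_of_nodup hn]
  exact Finset.card_le_card (by intro x hx; exact hA x (by simpa using hx))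

theorem greedy {t : ℕ} {A : Finset G} (n : ℕ) : ∀ (l : List G), Good t l → l.Nodup →
    (∀ x ∈ l, x ∈ A) → l.length + n + t ≤ A.card →
    ∃ r : List G, r.length = n ∧ Good t (l ++ r) ∧ (l ++ r).Nodup ∧ ∀ x ∈ l ++ r, x ∈ A := by
  induction n with
  | zero =>
    intro l h1 h2 h3 _
    exact ⟨[], rfl, by simpa using h1, by simpa using h2, by simpa using h3⟩
  | succ n ih =>
    intro l h1 h2 h3 h4
    have hc : t < (A \ l.toFinset).card := by
      rw [card_sdiff_list h2 h3]
      omega
    obtain ⟨x, hx, hg⟩ := exists_append h1 hc
    simp only [Finset.mem_sdiff, List.mem_toFinset] at hx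
    have hn : (l ++ [x]).Nodup := by
      rw [List.nodup_append]
      refine ⟨h2, by simp, ?_⟩
      intro a ha b hb hab
      simp only [List.mem_singleton] at hb
      subst hb
      subst hab
      exact hx.2 ha
    have hA : ∀ z ∈ l ++ [x], z ∈ A := by
      intro z hz
      rw [List.mem_append] at hz
      rcases hz with hz | hz
      · exact h3 z hz
      · simp only [List.mem_singleton] at hz
        subst hz
        exact hx.1
    obtain ⟨r, hr1, hr2, hr3, hr4⟩ := ih (l ++ [x]) hg hn hA (by simp; omega)
    refine ⟨x :: r, by simp [hr1], ?_, ?_, ?_⟩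
    · simpa using hr2
    · simpa using hr3
    · simpa using hr4

theorem placeBad {t : ℕ} {A : Finset G} (h0 : (0 : G) ∉ A) (bs : List G) :
    ∀ (l : List G), Good t l → l.Nodup → (∀ x ∈ l, x ∈ A) → bs.Nodup → (∀ x ∈ bs, x ∈ A) →
    (∀ x ∈ bs, x ∉ l) → l.length + 2 * bs.length + 2 * t ≤ A.card →
    ∃ r : List G, r.length = 2 * bs.length ∧ Good t (l ++ r) ∧ (l ++ r).Nodup ∧
      (∀ x ∈ l ++ r, x ∈ A) ∧ ∀ x ∈ bs, x ∈ l ++ r := by
  induction bs with
  | nil =>
    intro l h1 h2 h3 _ _ _ _
    exact ⟨[], rfl, by simpa using h1, by simpa using h2, by simpa using h3, by simp⟩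
  | cons b bs ih =>
    intro l h1 h2 h3 h4 h5 h6 h7
    simp only [List.length_cons] at h7
    have hb : b ≠ 0 := by
      rintro rfl
      exact h0 (h5 0 (by simp))
    have hc : 2 * t < (A \ (l ++ (b :: bs)).toFinset).card := by
      have hn : (l ++ (b :: bs)).Nodup := by
        rw [List.nodup_append]
        refine ⟨h2, h4, ?_⟩
        intro a ha c hc hac
        subst hac
        exact h6 a hc ha
      rw [card_sdiff_list hn]
      · simp
        omega
      · intro x hx
        rw [List.mem_append] at hx
        rcases hx with hx | hx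
        · exact h3 x hx
        · exact h5 x hx
    obtain ⟨x, hx, hg⟩ := exists_append_two h1 hb hc
    simp only [Finset.mem_sdiff, List.mem_toFinset, List.mem_append, List.mem_cons, not_or] at hx
    obtain ⟨hxA, hxl, hxb, hxbs⟩ := hx
    have hbbs : b ∉ bs := (List.nodup_cons.mp h4).1
    have hn : (l ++ [x, b]).Nodup := by
      rw [List.nodup_append]
      refine ⟨h2, by simp [hxb], ?_⟩
      intro a ha c hc hac
      subst hac
      simp only [List.mem_cons, List.not_mem_nil, or_false] at hc
      rcases hc with rfl | rfl
      · exact hxl ha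
      · exact h6 a (by simp) ha
    have hA : ∀ z ∈ l ++ [x, b], z ∈ A := by
      intro z hz
      simp only [List.mem_append, List.mem_cons, List.not_mem_nil, or_false] at hz
      rcases hz with hz | rfl | rfl
      · exact h3 z hz
      · exact hxA
      · exact h5 z (by simp)
    obtain ⟨r, hr1, hr2, hr3, hr4, hr5⟩ := ih (l ++ [x, b]) hg hn hA (List.nodup_cons.mp h4).2
      (fun z hz => h5 z (by simp [hz])) (by
        intro z hz hz'
        simp only [List.mem_append, List.mem_cons, List.not_mem_nil, or_false] at hz'
        rcases hz' with hz' | rfl | rfl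
        · exact h6 z (by simp [hz]) hz'
        · exact hxbs hz
        · exact hbbs hz) (by simp; omega)
    refine ⟨x :: b :: r, by simp [hr1]; omega, ?_, ?_, ?_, ?_⟩
    · simpa using hr2
    · simpa using hr3
    · simpa using hr4
    · intro z hz
      rcases List.mem_cons.mp hz with rfl | hz
      · simp
      · simpa using hr5 z hz

end greedy

section slots

/-- the elements that may not be inserted between `P` and `Q` -/
noncomputable def forb (t : ℕ) (P Q : List G) : Finset G :=
  (Finset.range t).biUnion fun n => (Finset.range (n + 1)).image fun r =>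
    -(P.drop (P.length - r)).sum + -(Q.take (n - r)).sum

theorem forb_card (t : ℕ) (P Q : List G) : 2 * (forb t P Q).card ≤ t * (t + 1) := by
  have h1 : (forb t P Q).card ≤ ∑ n ∈ Finset.range t, (n + 1) := by
    unfold forb
    refine Finset.card_biUnion_le.trans (Finset.sum_le_sum fun n _ => ?_)
    exact Finset.card_image_le.trans (by simp)
  have h2 : ∀ m : ℕ, 2 * ∑ n ∈ Finset.range m, (n + 1) = m * (m + 1) := by
    intro m
    induction m with
    | zero => simp
    | succ m ih =>
      rw [Finset.sum_range_succ, mul_add, ih]
      ring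
  have := h2 t
  omega

theorem forb_spec {t : ℕ} {P Q : List G} {y : G} (hy : y ∉ forb t P Q) {p u v q : List G}
    (hp : P = p ++ u) (hq : Q = v ++ q) (hlen : u.length + v.length + 1 ≤ t) :
    u.sum + (y + v.sum) ≠ 0 := by
  intro h0
  apply hy
  unfold forb
  rw [Finset.mem_biUnion]
  refine ⟨u.length + v.length, by rw [Finset.mem_range]; omega, ?_⟩
  rw [Finset.mem_image]
  refine ⟨u.length, by rw [Finset.mem_range]; omega, ?_⟩
  rw [← suffix_eq hp, Nat.add_sub_cancel_left, ← prefix_eq hq]
  have h1 : y + v.sum = -u.sum := eq_neg_of_add_eq_zero_right h0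
  rw [← h1]
  simp

/-- the list `M` up to position `j t`, with `o 1, ..., o j` inserted in the slots -/
def H (t : ℕ) (M : List G) (o : ℕ → List G) : ℕ → List G
  | 0 => []
  | (j + 1) => H t M o j ++ (M.drop (j * t)).take t ++ o (j + 1)

omit [AddGroup G] in
theorem H_nil (t : ℕ) (M : List G) (j : ℕ) : H t M (fun _ => []) j = M.take (j * t) := by
  induction j with
  | zero => simp [H]
  | succ j ih =>
    rw [H, ih, List.append_nil, add_mul, one_mul, List.take_add]

omit [AddGroup G] in
theorem drop_split (t : ℕ) (M : List G) (j : ℕ) :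
    M.drop (j * t) = (M.drop (j * t)).take t ++ M.drop ((j + 1) * t) := by
  conv_lhs => rw [← List.take_append_drop t (M.drop (j * t))]
  rw [List.drop_drop, add_mul, one_mul]

theorem H_good {t : ℕ} {M : List G} {o : ℕ → List G} {S : ℕ} (hM : Good t M)
    (hS : S * t ≤ M.length)
    (ho : ∀ j, o j = [] ∨ ∃ y, o j = [y] ∧ y ∉ forb t (M.take (j * t)) (M.drop (j * t))) :
    ∀ j, j ≤ S → Good t (H t M o j ++ M.drop (j * t)) := by
  intro j
  induction j with
  | zero => intro _; simpa [H] using hM
  | succ j ih =>
    intro hj
    have h1 := ih (by omega)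
    rw [drop_split, ← List.append_assoc] at h1
    rw [H]
    rcases ho (j + 1) with h2 | ⟨y, h2, h3⟩
    · rw [h2, List.append_nil]
      exact h1
    · rw [h2, List.append_assoc, List.singleton_append]
      refine good_insert h1 ?_
      intro p u v q hp hq hlen
      have hlen2 : ((M.drop (j * t)).take t).length = t := by
        have : (j + 1) * t ≤ S * t := Nat.mul_le_mul_right t hj
        rw [add_mul, one_mul] at this
        simp
        omega
      have hsuf : u <:+ (M.drop (j * t)).take t := by
        refine List.suffix_of_suffix_length_le (l₃ := H t M o j ++ (M.drop (j * t)).take t)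
          ⟨p, hp.symm⟩ ⟨_, rfl⟩ (by omega)
      have hsuf2 : u <:+ M.take ((j + 1) * t) := by
        refine hsuf.trans ⟨M.take (j * t), ?_⟩
        rw [add_mul, one_mul, List.take_add]
      obtain ⟨p', hp'⟩ := hsuf2
      exact forb_spec h3 hp'.symm hq hlen

omit [AddGroup G] in
theorem H_update_lt (t : ℕ) (M : List G) (o : ℕ → List G) (j : ℕ) (x : List G) :
    ∀ i, i < j → H t M (Function.update o j x) i = H t M o i := by
  intro i
  induction i with
  | zero => intro _; rfl
  | succ i ih =>
    intro hi
    rw [H, H, ih (by omega), Function.update_of_ne (by omega)]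

omit [AddGroup G] in
theorem H_update_perm (t : ℕ) (M : List G) (o : ℕ → List G) (j : ℕ) (hj : 1 ≤ j) (y : G)
    (ho : o j = []) : ∀ i, j ≤ i →
    (H t M (Function.update o j [y]) i).Perm (y :: H t M o i) := by
  intro i
  induction i with
  | zero => intro hi; omega
  | succ i ih =>
    intro hi
    rcases Nat.lt_or_ge i j with h1 | h1
    · have h2 : j = i + 1 := by omega
      subst h2
      rw [H, H, H_update_lt t M o (i + 1) [y] i (by omega), Function.update_self, ho,
        List.append_nil]
      exact List.perm_append_singleton _ _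
    · rw [H, H, Function.update_of_ne (by omega)]
      have h2 := ((ih h1).append_right ((M.drop (i * t)).take t)).append_right (o (i + 1))
      simpa using h2

omit [AddGroup G] in
theorem place (t S : ℕ) (M : List G) (F : ℕ → Finset G) (ys : List G)
    (hys : ∀ y ∈ ys, ys.length ≤ ((Finset.Icc 1 S).filter fun j => y ∉ F j).card) :
    ∃ o : ℕ → List G, (∀ j, o j = [] ∨ ∃ y, o j = [y] ∧ y ∉ F j) ∧
      ((Finset.Icc 1 S).filter fun j => o j ≠ []).card ≤ ys.length ∧
      (H t M o S).Perm (ys ++ H t M (fun _ => []) S) := by
  induction ys with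
  | nil => exact ⟨fun _ => [], fun j => Or.inl rfl, by simp, by simp⟩
  | cons y ys ih =>
    obtain ⟨o, h1, h2, h3⟩ := ih (fun z hz => by
      have := hys z (by simp [hz])
      simp only [List.length_cons] at this
      omega)
    have h4 := hys y (by simp)
    simp only [List.length_cons] at h4
    obtain ⟨j, hj, hj'⟩ := Finset.exists_mem_notMem_of_card_lt_card
      (lt_of_le_of_lt h2 (Nat.lt_of_succ_le h4))
    simp only [Finset.mem_filter, Finset.mem_Icc, ne_eq, not_and, not_not] at hj hj'
    have hoj : o j = [] := hj' hj.1
    refine ⟨Function.update o j [y], ?_, ?_, ?_⟩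
    · intro i
      by_cases hi : i = j
      · subst hi
        right
        exact ⟨y, by simp, hj.2⟩
      · rw [Function.update_of_ne hi]
        exact h1 i
    · have hsub : ((Finset.Icc 1 S).filter fun i => Function.update o j [y] i ≠ []) ⊆
          insert j ((Finset.Icc 1 S).filter fun i => o i ≠ []) := by
        intro i hi
        simp only [Finset.mem_filter, Finset.mem_insert] at hi ⊢
        by_cases hij : i = j
        · left; exact hij
        · right
          rw [Function.update_of_ne hij] at hi
          exact hi
      have h5 := Finset.card_le_card hsub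
      have h6 := Finset.card_insert_le j ((Finset.Icc 1 S).filter fun i => o i ≠ [])
      simp only [List.length_cons]
      omega
    · have h5 := H_update_perm t M o j hj.1.1 y hoj S hj.1.2
      exact h5.trans (by simpa using h3.cons y)

end slots

/-- **Result.** In every additive group `G` (abelian or not), for every `t ≥ 1`, every finite set
`A` of nonzero elements with at least `4 t ^ 2 + 3 t` elements can be ordered as
`(a_1, ..., a_k)` so that the partial sums satisfy `s_i ≠ s_j` whenever `0 ≤ i < j ≤ k` and
`j - i ≤ t`. -/
theorem result (G : Type*) [AddGroup G] (t : ℕ) (ht : 1 ≤ t) (A : Finset G) (h0 : (0 : G) ∉ A)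
    (hA : 4 * t ^ 2 + 3 * t ≤ A.card) :
    ∃ l : List G, l.Nodup ∧ (∀ x, x ∈ l ↔ x ∈ A) ∧
      ∀ i j : ℕ, i < j → j ≤ l.length → j - i ≤ t → (l.take i).sum ≠ (l.take j).sum := by
  -- phase 1
  obtain ⟨L, hL1, hL2, hL3, hL4⟩ := greedy (t := t) (A := A) ((2 * t + 1) * t) []
    (by intro p w s h hw _; simp at h; exact absurd h.2.1 hw) List.nodup_nil (by simp)
    (by simp; nlinarith)
  simp only [List.nil_append] at hL2 hL3 hL4
  set F : ℕ → Finset G := fun j => forb t (L.take (j * t)) (L.drop (j * t)) with hF
  set bad : Finset G := (A \ L.toFinset).filter fun y =>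
    ((Finset.Icc 1 (2 * t)).filter fun j => y ∉ F j).card < t with hbad
  have hbadcard : bad.card ≤ t ^ 2 := by
    have h1 : bad.card * (t + 1) ≤ (Finset.Icc 1 (2 * t)).card * (t * (t + 1) / 2) := by
      refine Finset.card_mul_le_card_mul (fun y j => y ∈ F j) ?_ ?_
      · intro y hy
        rw [hbad, Finset.mem_filter] at hy
        have h2 := Finset.card_filter_add_card_filter_not (s := Finset.Icc 1 (2 * t))
          (fun j => y ∈ F j)
        simp only [Nat.card_Icc, Nat.add_sub_cancel] at h2
        have h3 := hy.2
        have h4 : t + 1 ≤ ((Finset.Icc 1 (2 * t)).filter fun j => y ∈ F j).card := by omega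
        exact h4
      · intro j _
        have h2 : (bad.bipartiteBelow (fun y j => y ∈ F j) j).card ≤ (F j).card := by
          refine Finset.card_le_card ?_
          intro y hy
          unfold Finset.bipartiteBelow at hy
          rw [Finset.mem_filter] at hy
          exact hy.2
        have h3 := forb_card t (L.take (j * t)) (L.drop (j * t))
        rw [Nat.le_div_iff_mul_le (by norm_num)]
        calc (bad.bipartiteBelow (fun y j => y ∈ F j) j).card * 2 ≤ (F j).card * 2 :=
              Nat.mul_le_mul_right 2 h2
          _ ≤ t * (t + 1) := by rw [mul_comm]; exact h3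
    have h2 : (Finset.Icc 1 (2 * t)).card * (t * (t + 1) / 2) ≤ t ^ 2 * (t + 1) := by
      simp only [Nat.card_Icc, Nat.add_sub_cancel]
      have h3 : 2 * (t * (t + 1) / 2) ≤ t * (t + 1) := Nat.mul_div_le _ _
      calc 2 * t * (t * (t + 1) / 2) = t * (2 * (t * (t + 1) / 2)) := by ring
        _ ≤ t * (t * (t + 1)) := Nat.mul_le_mul_left t h3
        _ = t ^ 2 * (t + 1) := by ring
    exact Nat.le_of_mul_le_mul_right (h1.trans h2) (by omega)
  -- phase 2
  have hbl : bad.toList.length = bad.card := Finset.length_toList bad
  obtain ⟨r, hr1, hr2, hr3, hr4, hr5⟩ := placeBad (t := t) h0 bad.toList L hL2 hL3 hL4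
    (Finset.nodup_toList bad)
    (by intro x hx
        rw [Finset.mem_toList, hbad, Finset.mem_filter, Finset.mem_sdiff] at hx
        exact hx.1.1)
    (by intro x hx
        rw [Finset.mem_toList, hbad, Finset.mem_filter, Finset.mem_sdiff] at hx
        simpa using hx.1.2)
    (by rw [hbl, hL1]; nlinarith)
  -- phase 3
  have hlen2 : (L ++ r).length + t ≤ A.card := by
    rw [List.length_append, hL1, hr1, hbl]
    nlinarith
  obtain ⟨r', hr'1, hr'2, hr'3, hr'4⟩ := greedy (t := t) (A := A)
    (A.card - t - (L ++ r).length) (L ++ r) hr2 hr3 hr4 (by omega)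
  set M : List G := L ++ r ++ r' with hM
  have hMlen : M.length = A.card - t := by
    rw [hM, List.length_append, hr'1]
    omega
  set Y : Finset G := A \ M.toFinset with hY
  have hYcard : Y.toList.length = t := by
    rw [Finset.length_toList, hY, card_sdiff_list hr'3 hr'4, hMlen]
    have : t ≤ A.card := by nlinarith
    omega
  have hFM : ∀ j, j ≤ 2 * t → forb t (M.take (j * t)) (M.drop (j * t)) = F j := by
    intro j hj
    have hjt : j * t + t ≤ L.length := by
      rw [hL1]
      nlinarith
    have e1 : M.take (j * t) = L.take (j * t) := by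
      rw [hM, List.append_assoc, List.take_append_of_le_length (by omega)]
    have e2 : M.drop (j * t) = L.drop (j * t) ++ (r ++ r') := by
      rw [hM, List.append_assoc, List.drop_append_of_le_length (by omega)]
    rw [hF]
    simp only
    unfold forb
    refine Finset.biUnion_congr rfl ?_
    intro n hn
    rw [Finset.mem_range] at hn
    refine Finset.image_congr ?_
    intro q _
    simp only
    rw [e1, e2, List.take_append_of_le_length]
    rw [List.length_drop]
    omega
  obtain ⟨o, ho1, _, ho3⟩ := place t (2 * t) M F Y.toList (by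
    intro y hy
    rw [hYcard]
    rw [Finset.mem_toList, hY, Finset.mem_sdiff] at hy
    by_contra hcon
    rw [not_le] at hcon
    have hyM : y ∉ M := by simpa using hy.2
    have hyL : y ∉ L := fun h => hyM (by rw [hM]; simp [h])
    have hyb : y ∈ bad := by
      rw [hbad, Finset.mem_filter, Finset.mem_sdiff]
      exact ⟨⟨hy.1, by simpa using hyL⟩, hcon⟩
    have := hr5 y (by simpa using hyb)
    exact hyM (by rw [hM]; exact List.mem_append_left _ this))
  -- replace o by its restriction to the slots `0..2t`
  set o' : ℕ → List G := fun j => if j ≤ 2 * t then o j else [] with ho'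
  have hHo : ∀ j, j ≤ 2 * t → H t M o' j = H t M o j := by
    intro j
    induction j with
    | zero => intro _; rfl
    | succ j ih =>
      intro hj
      rw [H, H, ih (by omega), ho']
      simp only [hj, if_true]
  have hgood := H_good (o := o') (S := 2 * t) hr'2 (by
      rw [hMlen]
      have : 2 * t * t + t ≤ A.card := by nlinarith
      omega) (by
    intro j
    by_cases hj : j ≤ 2 * t
    · rw [hFM j hj]
      simp only [ho', hj, if_true]
      exact ho1 j
    · left
      simp only [ho', hj, if_false]) (2 * t) le_rfl
  rw [hHo (2 * t) le_rfl] at hgood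
  have hperm : (H t M o (2 * t) ++ M.drop (2 * t * t)).Perm (Y.toList ++ M) := by
    have h1 := ho3.append_right (M.drop (2 * t * t))
    rw [H_nil, List.append_assoc, List.take_append_drop] at h1
    exact h1
  refine ⟨H t M o (2 * t) ++ M.drop (2 * t * t), ?_, ?_, hgood.weak⟩
  · rw [hperm.nodup_iff, List.nodup_append]
    refine ⟨Finset.nodup_toList Y, hr'3, ?_⟩
    intro a ha b hb hab
    subst hab
    rw [Finset.mem_toList, hY, Finset.mem_sdiff, List.mem_toFinset] at ha
    exact ha.2 hb
  · intro x
    rw [hperm.mem_iff, List.mem_append, Finset.mem_toList, hY, Finset.mem_sdiff,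
      List.mem_toFinset]
    constructor
    · rintro (h | h)
      · exact h.1
      · exact hr'4 x h
    · intro h
      by_cases hx : x ∈ M
      · right; exact hx
      · left; exact ⟨h, hx⟩

end Pool.Agent.Results.MP_b4ec45_co.LargeSets
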